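import Pool.Agent.Helper59.SL.GoalsG

set_option autoImplicit false

namespace Pool.Agent.Helper29.SLG.FAILB

open Pool.Agent.Helper59.SL
open Pool.Agent.Helper51.SigLeo Pool.Agent.Helper51.SixExp Pool.Agent.Helper17.SL NumberField Module
  TensorProduct

universe u v w x y z

theorem thm : S_FAILB.{u, v, w, x, y, z} := by
  intro hINJ p _ k _ _ _ _ _ _ Ω _ _ _ _ ι Λ E _ _ lam F N K H _ _ _ _ _ _ _ _ _ _ _ _ _ _ _ _ _ _
    _ v₁ v₂ ψ η m₁ m₂ χ T τ₁ τ₂ hSPLIT hDESC hGRP hFK hSig hGen hSgn hm₁ hm₂ hχ hτ₁ hτ₂ hfail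
  have hfin : FiniteDimensional K H := FiniteDimensional.right ℚ K H
  unfold InjectiveOn at hfail
  push Not at hfail
  obtain ⟨x, hx, hx0⟩ := hfail
  set z := eChi (finrank K H) χ unitsHom x with hz
  have hzE : Eig (fun γ : H ≃ₐ[K] H ↦ (χ γ : k)) z := eig_eChi _ χ x
  obtain ⟨⟨c, hc2, hcN, hcK⟩, -, -⟩ := hGRP F N K H v₁ v₂ hFK hSig
  have hχ' : ∀ (γ : H ≃ₐ[K] H) (g : N ≃ₐ[F] N),
      (∀ x : N, γ (algebraMap N H x) = algebraMap N H (g x)) → χ γ = ch (ι.comp lam) ψ g := by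
    intro γ g hg
    apply Units.ext
    rw [hχ γ g hg]
    rfl
  obtain ⟨y₁, y₂, hzy, h1, h2⟩ := hSPLIT F N K H k (ch (ι.comp lam) ψ) χ η c z hFK hGen hSgn hc2 hcN
    hcK hχ' hzE
  obtain ⟨z₁, hz₁, hz₁E⟩ := hDESC F N H k (ch (ι.comp lam) ψ) y₁ h1
  obtain ⟨a, ha⟩ := hm₁ z₁ hz₁E
  obtain ⟨b, hb⟩ := hm₂ y₂ h2
  set f := ι.comp lam with hf
  have hzz : z = a • pf k (algebraMap N H) (cc f m₁) + b • cc f m₂ := by
    rw [hzy, ← hz₁, ha, hb, map_smul]
  have hL : ∀ τ ∈ T, a * extHom (logUnits Λ (τ.comp (algebraMap N H))) (cc f m₁) +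
      b * extHom (logUnits Λ τ) (cc f m₂) = 0 := by
    intro τ hτ
    have h := hx (logUnits Λ τ) ⟨τ, hτ, rfl⟩
    rw [hzz, map_add, map_smul, map_smul, extHom_logUnits_pf, smul_eq_mul, smul_eq_mul] at h
    exact h
  have e1 := hL τ₁ hτ₁
  have e2 := hL τ₂ hτ₂
  refine ⟨?_, ?_, ?_⟩
  · intro h0
    have hz0 : z = b • cc f m₂ := by rw [hzz, h0, map_zero, map_zero, smul_zero, zero_add]
    have hb0 : b ≠ 0 := by
      intro hb0
      apply hx0
      rw [hz0, hb0, zero_smul]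
    rw [h0, map_zero, map_zero, mul_zero, zero_add] at e1
    have h3 := (mul_eq_zero.1 e1).resolve_left hb0
    have h4 := hINJ p k Ω ι Λ E lam H τ₁ m₂ h3
    apply hx0
    rw [hz0, h4, map_zero, smul_zero]
  · intro h0
    have hz0 : z = a • pf k (algebraMap N H) (cc f m₁) := by
      rw [hzz, h0, map_zero, smul_zero, add_zero]
    have ha0 : a ≠ 0 := by
      intro ha0
      apply hx0
      rw [hz0, ha0, zero_smul]
    rw [h0, map_zero, map_zero, mul_zero, add_zero] at e1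
    have h3 := (mul_eq_zero.1 e1).resolve_left ha0
    have h4 := hINJ p k Ω ι Λ E lam N (τ₁.comp (algebraMap N H)) m₁ h3
    apply hx0
    rw [hz0, h4, map_zero, map_zero, smul_zero]
  · set α₁ := extHom (logUnits Λ (τ₁.comp (algebraMap N H))) (cc f m₁)
    set α₂ := extHom (logUnits Λ (τ₂.comp (algebraMap N H))) (cc f m₁)
    set β₁ := extHom (logUnits Λ τ₁) (cc f m₂)
    set β₂ := extHom (logUnits Λ τ₂) (cc f m₂)
    have hab : a ≠ 0 ∨ b ≠ 0 := by
      by_contra hcon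
      push Not at hcon
      apply hx0
      rw [hzz, hcon.1, hcon.2, zero_smul, zero_smul, add_zero]
    rcases hab with h | h
    · have : a * (α₁ * β₂ - α₂ * β₁) = 0 := by linear_combination β₂ * e1 - β₁ * e2
      exact sub_eq_zero.1 ((mul_eq_zero.1 this).resolve_left h)
    · have : b * (α₁ * β₂ - α₂ * β₁) = 0 := by linear_combination α₁ * e2 - α₂ * e1
      exact sub_eq_zero.1 ((mul_eq_zero.1 this).resolve_left h)

end Pool.Agent.Helper29.SLG.FAILB
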